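import Pool.Agent.D0H15.L9.Path

/-!
# L9-MOM: the top moment of a system of distributions
-/

set_option autoImplicit false
set_option linter.unusedVariables false
set_option linter.unusedSectionVars false

namespace Pool.Agent.D0H15.L9

open Finset Pool.Agent.D0H43.L9

variable {J : Type} [Fintype J] [DecidableEq J]

lemma mem_box {S : Finset J} {a : J → ZMod 3} : a ∈ box S ↔ ∀ k, k ∉ S → a k = 0 := by
  unfold Pool.Agent.D0H43.L9.box
  rw [Fintype.mem_piFinset]
  constructor
  · intro h k hk
    simpa [hk] using h k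
  · intro h k
    by_cases hk : k ∈ S
    · simp [hk]
    · simp [hk, h k hk]

variable {F : Type} [Field F]

/-- summation over the box, one coordinate separated -/
lemma sum_box_split {S : Finset J} {m : J} (hm : m ∈ S) (G : (J → ZMod 3) → F) :
    ∑ a ∈ box S, G a = ∑ a ∈ box (S.erase m), ∑ b : ZMod 3, G (Function.update a m b) := by
  rw [← Finset.sum_product']
  refine sum_bij' (fun a _ => (Function.update a m 0, a m))
    (fun p _ => Function.update p.1 m p.2) ?_ ?_ ?_ ?_ ?_
  · intro a ha
    rw [mem_box] at ha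
    simp only [mem_product, mem_univ, and_true, mem_box]
    intro k hk
    by_cases hkm : k = m
    · subst hkm; simp
    · rw [Function.update_of_ne hkm]
      exact ha k (fun h => hk (mem_erase.mpr ⟨hkm, h⟩))
  · rintro ⟨a, b⟩ hab
    simp only [mem_product, mem_univ, and_true, mem_box] at hab ⊢
    intro k hk
    have hkm : k ≠ m := fun h => hk (h ▸ hm)
    rw [Function.update_of_ne hkm]
    exact hab k (fun h => hk (mem_of_mem_erase h))
  · intro a ha
    simp
  · rintro ⟨a, b⟩ hab
    simp only [mem_product, mem_univ, and_true, mem_box] at hab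
    simp only [Function.update_idem, Function.update_self, Prod.mk.injEq, and_true]
    have : a m = 0 := hab m (by simp)
    rw [← this, Function.update_eq_self]
  · intro a ha
    simp

/-- translation -/
lemma sum_box_shift (S : Finset J) (g : J → ZMod 3) (f w : (J → ZMod 3) → F)
    (hf : ∀ a b, (∀ k ∈ S, a k = b k) → f a = f b)
    (hw : ∀ a b, (∀ k ∈ S, a k = b k) → w a = w b) :
    ∑ a ∈ box S, f a * w (fun k => a k + g k) = ∑ a ∈ box S, f (fun k => a k - g k) * w a := by
  refine sum_bij' (fun a _ => fun k => if k ∈ S then a k + g k else 0)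
    (fun a _ => fun k => if k ∈ S then a k - g k else 0) ?_ ?_ ?_ ?_ ?_
  · intro a ha
    rw [mem_box]; intro k hk; simp [hk]
  · intro a ha
    rw [mem_box]; intro k hk; simp [hk]
  · intro a ha
    rw [mem_box] at ha
    funext k
    by_cases hk : k ∈ S
    · simp [hk]
    · simp [hk, ha k hk]
  · intro a ha
    rw [mem_box] at ha
    funext k
    by_cases hk : k ∈ S
    · simp [hk]
    · simp [hk, ha k hk]
  · intro a ha
    congr 1
    · apply hf
      intro k hk
      simp [hk]
    · apply hw
      intro k hk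
      simp [hk]

/-- the linear form -/
def l (W : Finset J → (J → ZMod 3) → F) (S : Finset J) (f : (J → ZMod 3) → F) : F :=
  ∑ a ∈ box S, f a * W S a

section
variable (W : Finset J → (J → ZMod 3) → F)

lemma l_add (S : Finset J) (f g : (J → ZMod 3) → F) :
    l W S (fun a => f a + g a) = l W S f + l W S g := by
  unfold l; rw [← sum_add_distrib]; exact sum_congr rfl fun a _ => by ring

lemma l_smul (S : Finset J) (x : F) (f : (J → ZMod 3) → F) :
    l W S (fun a => x * f a) = x * l W S f := by
  unfold l; rw [mul_sum]; exact sum_congr rfl fun a _ => by ring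

lemma l_sum {A : Type} (S : Finset J) (s : Finset A) (f : A → (J → ZMod 3) → F) :
    l W S (fun a => ∑ i ∈ s, f i a) = ∑ i ∈ s, l W S (f i) := by
  unfold l; rw [sum_comm]; exact sum_congr rfl fun a _ => by rw [sum_mul]

variable (ι : ZMod 3 →+* F)

/-- squarefree monomial -/
def P (U : Finset J) (a : J → ZMod 3) : F := ∏ k ∈ U, ι (a k)

/-- monomial with a square -/
def Q (o : J) (U : Finset J) (a : J → ZMod 3) : F := ι (a o) ^ 2 * P ι U a

lemma P_shift (U : Finset J) (g a : J → ZMod 3) :
    P ι U (fun k => a k + g k) = ∑ V ∈ U.powerset, (∏ k ∈ U \ V, ι (g k)) * P ι V a := by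
  unfold P
  simp only [map_add]
  rw [Finset.prod_add]
  exact sum_congr rfl fun V _ => mul_comm _ _

lemma P_dep {S U : Finset J} (h : U ⊆ S) (a b : J → ZMod 3) (hab : ∀ k ∈ S, a k = b k) :
    P ι U a = P ι U b := prod_congr rfl fun k hk => by rw [hab k (h hk)]

lemma Q_dep {S U : Finset J} {o : J} (ho : o ∈ S) (h : U ⊆ S) (a b : J → ZMod 3)
    (hab : ∀ k ∈ S, a k = b k) : Q ι o U a = Q ι o U b := by
  unfold Q; rw [hab o ho, P_dep ι h a b hab]

lemma P_insert {o : J} {U : Finset J} (ho : o ∉ U) (a : J → ZMod 3) :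
    P ι (insert o U) a = ι (a o) * P ι U a := by
  unfold P; rw [prod_insert ho]

lemma l_P_shift (S U : Finset J) (g : J → ZMod 3) :
    l W S (fun a => P ι U (fun k => a k + g k)) =
      ∑ V ∈ U.powerset, (∏ k ∈ U \ V, ι (g k)) * l W S (P ι V) := by
  have : (fun a => P ι U (fun k => a k + g k)) =
      fun a => ∑ V ∈ U.powerset, (∏ k ∈ U \ V, ι (g k)) * P ι V a :=
    funext fun a => P_shift ι U g a
  rw [this, l_sum]
  exact sum_congr rfl fun V _ => l_smul W S _ _

lemma l_Q_shift (S U : Finset J) {o : J} (ho : o ∉ U) (g : J → ZMod 3) :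
    l W S (fun a => Q ι o U (fun k => a k + g k)) =
      ∑ V ∈ U.powerset, (∏ k ∈ U \ V, ι (g k)) * (l W S (Q ι o V) +
        2 * ι (g o) * l W S (P ι (insert o V)) + ι (g o) ^ 2 * l W S (P ι V)) := by
  have : (fun a => Q ι o U (fun k => a k + g k)) =
      fun a => ∑ V ∈ U.powerset, (∏ k ∈ U \ V, ι (g k)) * ((Q ι o V a +
        2 * ι (g o) * P ι (insert o V) a) + ι (g o) ^ 2 * P ι V a) := by
    funext a
    unfold Q
    rw [P_shift ι U g a, mul_sum]
    refine sum_congr rfl fun V hV => ?_
    have hoV : o ∉ V := fun h => ho (mem_powerset.mp hV h)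
    rw [P_insert ι hoV, map_add]
    ring
  rw [this, l_sum]
  refine sum_congr rfl fun V _ => ?_
  rw [l_smul, l_add, l_add, l_smul, l_smul]

end

/-- the hypotheses -/
structure Hyp (ι : ZMod 3 →+* F) (c : J → J → ZMod 3) (q : J → ZMod 3)
    (W : Finset J → (J → ZMod 3) → F) : Prop where
  symm : ∀ j k, j ≠ k → c j k = c k j
  dep : ∀ S a b, (∀ k ∈ S, a k = b k) → W S a = W S b
  emp : ∀ a, W ∅ a = 0
  dist : ∀ S, ∀ m ∈ S, ∀ a, ∑ b : ZMod 3, W S (Function.update a m b) =
    W (S.erase m) a - W (S.erase m) (fun k => a k - c k m)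
  shift : ∀ S, S.Nonempty → ∀ a, W S (fun k => a k + q k) = W S a + ι (∏ k ∈ S, q k)
  zero : ∀ S, (∀ k ∈ S, q k = 0) → ∀ a, W S a = 0

variable {ι : ZMod 3 →+* F} {c : J → J → ZMod 3} {q : J → ZMod 3}
  {W : Finset J → (J → ZMod 3) → F}

lemma l_marg (H : Hyp ι c q W) {S : Finset J} {m : J} (hm : m ∈ S) (f : (J → ZMod 3) → F)
    (hf : ∀ a b, (∀ k ∈ S.erase m, a k = b k) → f a = f b) :
    l W S f = l W (S.erase m) f - l W (S.erase m) (fun a => f (fun k => a k + c k m)) := by
  unfold l
  rw [sum_box_split hm]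
  have h1 : ∀ a : J → ZMod 3, ∑ b : ZMod 3, f (Function.update a m b) * W S (Function.update a m b)
      = f a * W (S.erase m) a - f a * W (S.erase m) (fun k => a k + -c k m) := by
    intro a
    have h2 : ∀ b : ZMod 3, f (Function.update a m b) * W S (Function.update a m b) =
        f a * W S (Function.update a m b) := by
      intro b
      rw [hf (Function.update a m b) a (fun k hk => by
        rw [Function.update_of_ne (ne_of_mem_erase hk)])]
    rw [sum_congr rfl fun b _ => h2 b, ← mul_sum, H.dist S m hm a, mul_sub]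
    simp only [sub_eq_add_neg]
  rw [sum_congr rfl fun a _ => h1 a, sum_sub_distrib]
  congr 1
  rw [sum_box_shift (S.erase m) (fun k => -c k m) f (W (S.erase m)) hf (H.dep _)]
  simp only [sub_neg_eq_add]

/-- non-top squarefree moments vanish -/
lemma l_P_zero (H : Hyp ι c q W) : ∀ (n : ℕ) (S U : Finset J), S.card = n → U ⊂ S →
    l W S (P ι U) = 0 := by
  intro n
  induction n with
  | zero =>
    intro S U hS hU
    rw [card_eq_zero.mp hS] at hU
    exact absurd hU (not_ssubset_empty U)
  | succ n ih =>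
    intro S U hS hU
    obtain ⟨m, hmS, hmU⟩ := exists_of_ssubset hU
    have hUm : U ⊆ S.erase m := fun k hk => mem_erase.mpr ⟨fun h => hmU (h ▸ hk), hU.1 hk⟩
    rw [l_marg H hmS (P ι U) (fun a b hab => P_dep ι hUm a b hab),
      l_P_shift W ι (S.erase m) U (fun k => c k m),
      ← sum_erase_add _ _ (mem_powerset.mpr (Subset.refl U))]
    have h0 : ∑ V ∈ U.powerset.erase U, (∏ k ∈ U \ V, ι (c k m)) * l W (S.erase m) (P ι V) = 0 := by
      refine sum_eq_zero fun V hV => ?_
      simp only [mem_erase, mem_powerset, ne_eq] at hV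
      rw [ih (S.erase m) V (by rw [card_erase_of_mem hmS, hS]; rfl)
        ((hV.2.ssubset_of_ne hV.1).trans_subset hUm), mul_zero]
    rw [h0]
    simp

/-- sum over the subsets: only `U` and the `U - k` matter -/
lemma sum_two {M : Type} [AddCommMonoid M] (U : Finset J) (f : Finset J → M)
    (hf : ∀ V ⊆ U, 2 ≤ (U \ V).card → f V = 0) :
    ∑ V ∈ U.powerset, f V = f U + ∑ k ∈ U, f (U.erase k) := by
  have hsub : insert U (U.image fun k => U.erase k) ⊆ U.powerset := by
    intro V hV
    simp only [mem_insert, mem_image, mem_powerset] at hV ⊢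
    rcases hV with rfl | ⟨k, _, rfl⟩
    · exact Subset.refl _
    · exact erase_subset _ _
  rw [← sum_subset hsub, sum_insert, sum_image]
  · intro a ha b hb hab
    by_contra hne
    have : a ∈ U.erase b := mem_erase.mpr ⟨hne, ha⟩
    have hab' : U.erase a = U.erase b := hab
    rw [← hab'] at this
    simp at this
  · simp only [mem_image, not_exists, not_and]
    intro k hk h
    have := notMem_erase k U
    rw [h] at this
    exact this hk
  · intro V hV hV2
    simp only [mem_insert, mem_image, mem_powerset, not_or, not_exists, not_and] at hV hV2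
    apply hf V hV
    by_contra hlt
    push Not at hlt
    have hle : (U \ V).card ≤ 1 := by omega
    rcases Nat.le_one_iff_eq_zero_or_eq_one.mp hle with h | h
    · rw [card_eq_zero, sdiff_eq_empty_iff_subset] at h
      exact hV2.1 (Subset.antisymm hV h)
    · obtain ⟨k, hk⟩ := card_eq_one.mp h
      have hkU : k ∈ U := (mem_sdiff.mp (hk ▸ mem_singleton_self k)).1
      apply hV2.2 k hkU
      ext x
      rw [mem_erase]
      constructor
      · rintro ⟨h1, h2⟩
        by_contra h3
        have : x ∈ U \ V := mem_sdiff.mpr ⟨h2, h3⟩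
        rw [hk] at this
        exact h1 (mem_singleton.mp this)
      · intro hx
        refine ⟨fun h4 => ?_, hV hx⟩
        have : k ∈ U \ V := hk ▸ mem_singleton_self k
        exact (mem_sdiff.mp this).2 (h4 ▸ hx)

/-- expansion of the shifted moment with a square -/
lemma l_Q_shift2 (H : Hyp ι c q W) {S U : Finset J} {o : J} (ho : o ∈ S) (hoU : o ∉ U) (hU : U ⊆ S)
    (hv : ∀ V ⊆ S.erase o, 2 ≤ (S.erase o \ V).card → l W S (Q ι o V) = 0) (g : J → ZMod 3) :
    l W S (fun a => Q ι o U (fun k => a k + g k)) =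
      l W S (Q ι o U) + if U = S.erase o then
        2 * ι (g o) * l W S (P ι S) + ∑ k ∈ U, ι (g k) * l W S (Q ι o (U.erase k)) else 0 := by
  have hUo : U ⊆ S.erase o := fun k hk => mem_erase.mpr ⟨fun h => hoU (h ▸ hk), hU hk⟩
  rw [l_Q_shift W ι S U hoU g]
  have hP : ∀ V ⊆ U, l W S (P ι V) = 0 := fun V hV =>
    l_P_zero H _ S V rfl ((ssubset_iff_of_subset (hV.trans hU)).mpr ⟨o, ho, fun h => hoU (hV h)⟩)
  have hPi : ∀ V ⊂ S.erase o, l W S (P ι (insert o V)) = 0 := by
    intro V hV
    obtain ⟨x, hx, hxV⟩ := exists_of_ssubset hV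
    refine l_P_zero H _ S _ rfl ((ssubset_iff_of_subset ?_).mpr ⟨x, mem_of_mem_erase hx, ?_⟩)
    · exact insert_subset ho (hV.1.trans (erase_subset _ _))
    · rw [mem_insert, not_or]
      exact ⟨ne_of_mem_erase hx, hxV⟩
  split_ifs with hUS
  · subst hUS
    rw [sum_two (S.erase o)]
    · simp only [Finset.sdiff_self, prod_empty, one_mul]
      rw [hP _ (Subset.refl _), mul_zero, add_zero, insert_erase ho, add_assoc]
      congr 2
      refine sum_congr rfl fun k hk => ?_
      rw [hP _ (erase_subset _ _), hPi _ (erase_ssubset hk), mul_zero, mul_zero, add_zero, add_zero,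
        sdiff_erase_self hk, prod_singleton]
    · intro V hV h2
      have hss : V ⊂ S.erase o := by
        refine hV.ssubset_of_ne ?_
        rintro rfl
        simp at h2
      rw [hv V hV h2, hP V hV, hPi V hss]
      ring
  · rw [add_zero, ← sum_erase_add _ _ (mem_powerset.mpr (Subset.refl U))]
    have hlt : U ⊂ S.erase o := hUo.ssubset_of_ne hUS
    have h0 : ∑ V ∈ U.powerset.erase U, (∏ k ∈ U \ V, ι (g k)) * (l W S (Q ι o V) +
        2 * ι (g o) * l W S (P ι (insert o V)) + ι (g o) ^ 2 * l W S (P ι V)) = 0 := by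
      refine sum_eq_zero fun V hV => ?_
      simp only [mem_erase, mem_powerset, ne_eq] at hV
      have hVU : V ⊂ U := hV.2.ssubset_of_ne hV.1
      have hVS : V ⊂ S.erase o := hVU.trans hlt
      have h2 : 2 ≤ (S.erase o \ V).card := by
        obtain ⟨x, hx, hxV⟩ := exists_of_ssubset hVU
        obtain ⟨y, hy, hyU⟩ := exists_of_ssubset hlt
        have : ({x, y} : Finset J) ⊆ S.erase o \ V := by
          intro z hz
          simp only [mem_insert, mem_singleton] at hz
          rcases hz with rfl | rfl
          · exact mem_sdiff.mpr ⟨hUo hx, hxV⟩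
          · exact mem_sdiff.mpr ⟨hy, fun h => hyU (hV.2 h)⟩
        have hxy : x ≠ y := fun h => hyU (h ▸ hx)
        calc 2 = ({x, y} : Finset J).card := (card_pair hxy).symm
          _ ≤ _ := card_le_card this
      rw [hv V hVS.1 h2, hP V hV.2, hPi V hVS]
      ring
    rw [h0, zero_add, hP U (Subset.refl _), hPi U hlt]
    simp

/-- the moments with a square vanish if two coordinates are missing -/
lemma l_Q_zero (H : Hyp ι c q W) (o : J) : ∀ (n : ℕ) (S : Finset J), S.card = n → o ∈ S →
    ∀ V ⊆ S.erase o, 2 ≤ (S.erase o \ V).card → l W S (Q ι o V) = 0 := by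
  intro n
  induction n with
  | zero =>
    intro S hS ho
    rw [card_eq_zero.mp hS] at ho
    simp at ho
  | succ n ih =>
    intro S hS ho V hV h2
    have hne : (S.erase o \ V).Nonempty := card_pos.mp (by omega)
    obtain ⟨m, hm⟩ := hne
    have hm' := mem_sdiff.mp hm
    have hmS : m ∈ S := mem_of_mem_erase hm'.1
    have hmo : m ≠ o := ne_of_mem_erase hm'.1
    have hoV : o ∉ V := fun h => by simpa using hV h
    have hVm : V ⊆ S.erase m := fun k hk =>
      mem_erase.mpr ⟨fun h => hm'.2 (h ▸ hk), mem_of_mem_erase (hV hk)⟩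
    have hoSm : o ∈ S.erase m := mem_erase.mpr ⟨Ne.symm hmo, ho⟩
    rw [l_marg H hmS (Q ι o V) (fun a b hab => Q_dep ι hoSm hVm a b hab),
      l_Q_shift2 H hoSm hoV hVm (ih (S.erase m) (by rw [card_erase_of_mem hmS, hS]; rfl) hoSm)]
    rw [if_neg, add_zero, sub_self]
    rintro rfl
    have : S.erase o \ (S.erase m).erase o ⊆ {m} := by
      intro x hx
      simp only [mem_sdiff, mem_erase, not_and, ne_eq, mem_singleton] at hx ⊢
      by_contra hxm
      exact hx.2 hx.1.1 hxm hx.1.2
    have := card_le_card this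
    rw [card_singleton] at this
    omega

/-- top moments -/
def A (ι : ZMod 3 →+* F) (W : Finset J → (J → ZMod 3) → F) (S : Finset J) : F := l W S (P ι S)

/-- almost top moments -/
def C (ι : ZMod 3 →+* F) (W : Finset J → (J → ZMod 3) → F) (o m : J) (T : Finset J) : F :=
  l W (insert o (insert m T)) (Q ι o T)

lemma three_eq_zero (ι : ZMod 3 →+* F) : (3 : F) = 0 := by
  have h : ι (3 : ZMod 3) = 3 := map_ofNat ι 3
  have h3 : (3 : ZMod 3) = 0 := by decide
  rw [← h, h3, map_zero]

lemma C_rec (H : Hyp ι c q W) {o m : J} {T : Finset J} (ho : o ∉ T) (hm : m ∉ T) (hmo : m ≠ o) :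
    C ι W o m T = ι (c m o) * A ι W (insert o T) - ∑ k ∈ T, ι (c m k) * C ι W o k (T.erase k) := by
  unfold C
  have hmS : m ∈ insert o (insert m T) := by simp
  have hSm : (insert o (insert m T)).erase m = insert o T := by
    rw [erase_insert_of_ne (Ne.symm hmo), erase_insert hm]
  rw [l_marg H hmS (Q ι o T) (fun a b hab => Q_dep ι (by rw [hSm]; simp)
    (by rw [hSm]; exact subset_insert _ _) a b hab), hSm,
    l_Q_shift2 H (mem_insert_self o T) ho (subset_insert _ _)
      (l_Q_zero H o _ (insert o T) rfl (mem_insert_self o T)), erase_insert ho, if_pos rfl]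
  have h1 : ∀ k ∈ T, ι (c k m) * l W (insert o T) (Q ι o (T.erase k)) =
      ι (c m k) * l W (insert o (insert k (T.erase k))) (Q ι o (T.erase k)) := by
    intro k hk
    rw [insert_erase hk, H.symm k m (fun h => hm (h ▸ hk))]
  rw [sum_congr rfl h1, H.symm o m (Ne.symm hmo)]
  unfold A
  have h3 := three_eq_zero ι
  linear_combination (-ι (c m o) * l W (insert o T) (P ι (insert o T))) * h3

lemma C_unroll (H : Hyp ι c q W) (o : J) : ∀ (n : ℕ) (T : Finset J) (m : J), T.card = n → o ∉ T →
    m ∉ T → m ≠ o → C ι W o m T =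
      ∑ U ∈ T.powerset, (-1) ^ U.card * ι (K c (fun k => c k o) m U) * A ι W (insert o (T \ U)) := by
  intro n
  induction n using Nat.strong_induction_on with
  | _ n ih =>
    intro T m hT ho hm hmo
    rw [C_rec H ho hm hmo]
    have h1 : ∀ k ∈ T, ι (c m k) * C ι W o k (T.erase k) =
        ∑ U ∈ (T.erase k).powerset, ι (c m k) * ((-1) ^ U.card * ι (K c (fun k => c k o) k U)) *
          A ι W (insert o ((T.erase k) \ U)) := by
      intro k hk
      rw [ih (T.erase k).card (by rw [← hT]; exact card_erase_lt_of_mem hk) (T.erase k) k rfl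
        (by simp [ho]) (by simp) (fun h => ho (h ▸ hk)), mul_sum]
      exact sum_congr rfl fun U _ => by ring
    rw [sum_congr rfl h1, ← dc T (fun k U V => ι (c m k) * ((-1) ^ U.card *
      ι (K c (fun k => c k o) k U)) * A ι W (insert o V))]
    have h2 : ∀ U ∈ T.powerset, (-1) ^ U.card * ι (K c (fun k => c k o) m U) *
        A ι W (insert o (T \ U)) = (if U = ∅ then ι (c m o) * A ι W (insert o T) else 0) -
        ∑ k ∈ U, ι (c m k) * ((-1) ^ (U.erase k).card * ι (K c (fun k => c k o) k (U.erase k))) *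
          A ι W (insert o (T \ U)) := by
      intro U hU
      have hmU : m ∉ U := fun h => hm (mem_powerset.mp hU h)
      rw [K_rec c (fun k => c k o) hmU]
      by_cases hU0 : U = ∅
      · subst hU0; simp
      · rw [if_neg hU0, if_neg hU0, zero_add, zero_sub, map_sum, mul_sum, sum_mul,
          ← sum_neg_distrib]
        refine sum_congr rfl fun k hk => ?_
        have : U.card = (U.erase k).card + 1 := (card_erase_add_one hk).symm
        rw [this, pow_succ, map_mul]
        ring
    rw [sum_congr rfl h2, sum_sub_distrib]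
    congr 1
    rw [sum_ite_eq' T.powerset ∅ (fun _ => ι (c m o) * A ι W (insert o T))]
    simp

lemma sum_zmod_id (ι : ZMod 3 →+* F) : ∑ b : ZMod 3, ι b = 0 := by
  rw [← map_sum]
  have : ∑ b : ZMod 3, b = 0 := by decide
  rw [this, map_zero]

lemma sum_zmod_sq (ι : ZMod 3 →+* F) : ∑ b : ZMod 3, ι b ^ 2 = -1 := by
  have : ∑ b : ZMod 3, b ^ 2 = -1 := by decide
  have h := congrArg ι this
  rw [map_sum] at h
  simpa using h

/-- the sum of the monomial over the box -/
lemma sum_box_Q {o : J} {T : Finset J} (ho : o ∉ T) (hT : T.Nonempty) :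
    ∑ a ∈ box (insert o T), Q ι o T a = 0 := by
  obtain ⟨m, hm⟩ := hT
  have hmo : o ≠ m := fun h => ho (h ▸ hm)
  rw [sum_box_split (mem_insert_of_mem hm)]
  refine sum_eq_zero fun a _ => ?_
  have : ∀ b : ZMod 3, Q ι o T (Function.update a m b) =
      ι (a o) ^ 2 * P ι (T.erase m) a * ι b := by
    intro b
    unfold Q
    rw [Function.update_of_ne hmo]
    have : P ι T (Function.update a m b) = ι b * P ι (T.erase m) a := by
      unfold P
      rw [← mul_prod_erase T _ hm, Function.update_self]
      congr 1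
      refine prod_congr rfl fun k hk => ?_
      rw [Function.update_of_ne (ne_of_mem_erase hk)]
    rw [this]; ring
  rw [sum_congr rfl fun b _ => this b, ← mul_sum, sum_zmod_id, mul_zero]

lemma sum_box_Q1 (o : J) : ∑ a ∈ box {o}, Q ι o ∅ a = -1 := by
  rw [sum_box_split (mem_singleton_self o)]
  have h1 : box (({o} : Finset J).erase o) = {fun _ => 0} := by
    ext a
    rw [mem_box, mem_singleton]
    constructor
    · intro h; funext k; exact h k (by simp)
    · rintro rfl; simp
  rw [h1, sum_singleton]
  have : ∀ b : ZMod 3, Q ι o ∅ (Function.update (fun _ => (0 : ZMod 3)) o b) = ι b ^ 2 := by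
    intro b; simp [Q, P]
  rw [sum_congr rfl fun b _ => this b, sum_zmod_sq]

/-- the relation from the shift -/
lemma shift_rel (H : Hyp ι c q W) {o : J} {T : Finset J} (ho : o ∉ T) :
    ι (q o) * A ι W (insert o T) - ∑ m ∈ T, ι (q m) * C ι W o m (T.erase m) =
      ι (∏ k ∈ insert o T, q k) * ∑ a ∈ box (insert o T), Q ι o T a := by
  set S := insert o T with hS
  have hoS : o ∈ S := mem_insert_self o T
  have hSo : S.erase o = T := erase_insert ho
  have h1 : ∑ a ∈ box S, Q ι o T a * W S (fun k => a k + q k) =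
      l W S (Q ι o T) + ι (∏ k ∈ S, q k) * ∑ a ∈ box S, Q ι o T a := by
    unfold l
    rw [mul_sum, ← sum_add_distrib]
    refine sum_congr rfl fun a _ => ?_
    rw [H.shift S ⟨o, hoS⟩ a]; ring
  have h2 : ∑ a ∈ box S, Q ι o T a * W S (fun k => a k + q k) =
      l W S (fun a => Q ι o T (fun k => a k + -q k)) := by
    rw [sum_box_shift S q (Q ι o T) (W S)
      (fun a b hab => Q_dep ι hoS (subset_insert _ _) a b hab) (H.dep S)]
    unfold l
    simp only [sub_eq_add_neg]
  rw [l_Q_shift2 H hoS ho (subset_insert _ _) (l_Q_zero H o _ S rfl hoS), if_pos hSo.symm] at h2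
  have h3 : ∀ m ∈ T, ι (-q m) * l W S (Q ι o (T.erase m)) =
      - (ι (q m) * C ι W o m (T.erase m)) := by
    intro m hm
    unfold C
    rw [insert_erase hm, map_neg]
    ring
  rw [sum_congr rfl h3, sum_neg_distrib, map_neg] at h2
  have h4 := h1.symm.trans h2
  have h5 := three_eq_zero ι
  unfold A
  linear_combination -h4 + (ι (q o) * l W S (P ι S)) * h5

/-- the recursion for the top moments -/
lemma top_rec (H : Hyp ι c q W) {o : J} {T : Finset J} (ho : o ∉ T) (hT : T.Nonempty) :
    ∑ V ∈ T.powerset, (-1) ^ V.card * ι (K c q o V) * A ι W (insert o (T \ V)) = 0 := by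
  have h := shift_rel H ho
  rw [sum_box_Q ho hT, mul_zero] at h
  have h1 : ∀ m ∈ T, ι (q m) * C ι W o m (T.erase m) =
      ∑ U ∈ (T.erase m).powerset, ι (q m) * ((-1) ^ U.card * ι (K c (fun k => c k o) m U)) *
        A ι W (insert o ((T.erase m) \ U)) := by
    intro m hm
    rw [C_unroll H o _ (T.erase m) m rfl (by simp [ho]) (by simp) (fun h => ho (h ▸ hm)), mul_sum]
    exact sum_congr rfl fun U _ => by ring
  rw [sum_congr rfl h1, ← dc T (fun m U V => ι (q m) * ((-1) ^ U.card *
      ι (K c (fun k => c k o) m U)) * A ι W (insert o V))] at h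
  rw [← sum_erase_add _ _ (empty_mem_powerset T)] at h ⊢
  rw [sum_empty, add_zero] at h
  rw [card_empty, pow_zero, one_mul, K_empty, sdiff_empty]
  have h2 : ∀ V ∈ T.powerset.erase ∅, ∑ m ∈ V, ι (q m) * ((-1) ^ (V.erase m).card *
      ι (K c (fun k => c k o) m (V.erase m))) * A ι W (insert o (T \ V)) =
      - ((-1) ^ V.card * ι (K c q o V) * A ι W (insert o (T \ V))) := by
    intro V hV
    simp only [mem_erase, mem_powerset, ne_eq] at hV
    have hoV : o ∉ V := fun h => ho (hV.2 h)
    rw [← R_eq_K c H.symm q hoV (nonempty_iff_ne_empty.mpr hV.1)]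
    unfold R
    rw [map_sum, mul_sum, sum_mul, ← sum_neg_distrib]
    refine sum_congr rfl fun k hk => ?_
    have : V.card = (V.erase k).card + 1 := (card_erase_add_one hk).symm
    rw [this, pow_succ, map_mul]
    ring
  rw [sum_congr rfl h2, sum_neg_distrib] at h
  linear_combination h

lemma top_one (H : Hyp ι c q W) (o : J) (ho : q o ≠ 0) : A ι W {o} = - ι (q o ^ 2) := by
  have h := shift_rel H (notMem_empty o)
  have e : insert o (∅ : Finset J) = {o} := rfl
  rw [e, sum_box_Q1, sum_empty, prod_singleton, sub_zero] at h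
  have hq : ι (q o) ≠ 0 := (map_ne_zero ι).mpr ho
  have h2 : A ι W {o} = -1 := mul_left_cancel₀ hq h
  have h3 : q o ^ 2 = 1 := by
    revert ho; generalize q o = x; revert x; decide
  rw [h2, h3, map_one]

/-- the top moment -/
theorem top (H : Hyp ι c q W) : ∀ (n : ℕ) (S : Finset J), S.card = n → S.Nonempty →
    A ι W S = (-1) ^ S.card * ι (phi c q S) := by
  intro n
  induction n using Nat.strong_induction_on with
  | _ n ih =>
    intro S hS hSn
    by_cases hq : ∀ k ∈ S, q k = 0
    · have h1 : A ι W S = 0 := by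
        unfold A l
        exact sum_eq_zero fun a _ => by rw [H.zero S hq a, mul_zero]
      have h2 : phi c q S = 0 := by
        unfold phi
        exact sum_eq_zero fun k hk => by rw [hq k hk, zero_mul]
      rw [h1, h2, map_zero, mul_zero]
    push Not at hq
    obtain ⟨o, hoS, hqo⟩ := hq
    obtain ⟨T, hoT, rfl⟩ : ∃ T, o ∉ T ∧ insert o T = S := ⟨S.erase o, by simp, insert_erase hoS⟩
    have hιq : ι (q o) ≠ 0 := (map_ne_zero ι).mpr hqo
    rcases T.eq_empty_or_nonempty with rfl | hT
    · have e : insert o (∅ : Finset J) = {o} := rfl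
      rw [e, top_one H o hqo, ← e, phi_insert c H.symm q hoT]
      simp [K_empty, sq]
    have hr := top_rec H hoT hT
    have hc := cube (K c q o) hT
    have hc2 : ∑ V ∈ T.powerset, K c q o V * phi c q (insert o (T \ V)) = 0 := by
      rw [← hc]
      refine sum_congr rfl fun V hV => ?_
      rw [phi_insert c H.symm q (fun h => hoT (mem_sdiff.mp h).1)]
    have hc3 : ∑ V ∈ T.powerset, ι (K c q o V) * ι (phi c q (insert o (T \ V))) = 0 := by
      have := congrArg ι hc2
      rw [map_sum, map_zero] at this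
      rw [← this]
      exact sum_congr rfl fun V _ => (map_mul _ _ _).symm
    rw [← sum_erase_add _ _ (empty_mem_powerset T)] at hr hc3
    have h1 : ∀ V ∈ T.powerset.erase ∅, (-1) ^ V.card * ι (K c q o V) *
        A ι W (insert o (T \ V)) = (-1) ^ (insert o T).card *
          (ι (K c q o V) * ι (phi c q (insert o (T \ V)))) := by
      intro V hV
      simp only [mem_erase, mem_powerset, ne_eq] at hV
      have hVpos : 0 < V.card := card_pos.mpr (nonempty_iff_ne_empty.mpr hV.1)
      have hcard : (T \ V).card + V.card = T.card := card_sdiff_add_card_eq_card hV.2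
      have hoTV : o ∉ T \ V := fun h => hoT (mem_sdiff.mp h).1
      rw [card_insert_of_notMem hoT] at hS
      rw [ih (insert o (T \ V)).card (by rw [card_insert_of_notMem hoTV]; omega)
        (insert o (T \ V)) rfl (insert_nonempty _ _), card_insert_of_notMem hoTV,
        card_insert_of_notMem hoT, ← hcard]
      rw [pow_succ, pow_succ, pow_add]
      ring
    rw [sum_congr rfl h1, ← mul_sum, card_empty, pow_zero, one_mul, K_empty, sdiff_empty] at hr
    rw [K_empty, sdiff_empty] at hc3
    have h2 : ι (q o) * (A ι W (insert o T) - (-1) ^ (insert o T).card * ι (phi c q (insert o T)))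
        = 0 := by
      linear_combination hr - (-1) ^ (insert o T).card * hc3
    have h3 := (mul_eq_zero.mp h2).resolve_left hιq
    linear_combination h3

theorem mom : S_MOM := by
  intro F _ ι J _ _ c q W h1 h2 h3 h4 h5 h6 S hS
  have H : Hyp ι c q W := ⟨h1, h2, h3, h4, h5, h6⟩
  rw [← top H _ S rfl hS]
  unfold A l P
  refine sum_congr rfl fun a _ => ?_
  rw [map_prod]

end Pool.Agent.D0H15.L9
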