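import Pool.Agent.D0H15.L9.Fin
import Pool.Agent.D0H15.L9.Mom
import Pool.Agent.D0H92.L9.Loc3N

/-!
# Project L9: Selmer group and points, unconditional
-/

set_option autoImplicit false
set_option linter.unusedVariables false

open scoped Classical

namespace Pool.Agent.D0H15.L9

open NumberField WeierstrassCurve
open Pool.Agent.Y692.QS (Ei w nr toC)
open Pool.Agent.Y715.T.Gi Pool.Agent.Y715.T.Nr Pool.Agent.Y715.T.Df Pool.Agent.Y715.T.Ell
open Pool.Agent.Y703.CT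
open Pool.Agent.D0H43.L9

/-- the Selmer group -/
theorem selN (J : Type) [Fintype J] (π : J → Ei) (e : J → ZMod 3) (i : ZMod 3) (hD : Dt π e)
    (hk : KerN π e i) (i₀ : QB) (hi : i₀ ^ 2 + i₀ + 1 = 0) (u : QB) (a : GK i₀ → ZMod 3)
    (hT : Tw hi (pN π e i) u a) : Sel1 hi a :=
  sel Pool.Agent.D0H92.L9.loc3n Pool.Agent.N883.FF.ram Pool.Agent.N883.FF.unr J π e i hD hk i₀ hi
    u a hT

/-- L9-FIN over a number field -/
theorem finK : S_FINN := finN Pool.Agent.D0H92.L9.loc3n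

/-- L9-FIN over `ℚ` -/
theorem finD {d : ℕ} {J : Type} [Fintype J] {π : J → Ei} {e : J → ZMod 3}
    (hD : Dt π e) (hd : (d : Ei) = pD π e ∨ (d : Ei) = -pD π e) (hd0 : d ≠ 0)
    (hk : KerN π e 0) :
    Finite (EQ (WD ((9 * d : ℕ) : ℤ))).toAffine.Point ∧
    padicValNat 3 (Nat.card (EQ (WD ((9 * d : ℕ) : ℤ))).toAffine.Point) = 1 ∧
    ∀ (n : ℕ) (x : Pool.Agent.TH841.SH.D.Sha (EQ (WD ((9 * d : ℕ) : ℤ)))),
      3 ^ n • x = 0 → x = 0 :=
  finQ Pool.Agent.D0H92.L9.loc3n hD hd hd0 hk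

end Pool.Agent.D0H15.L9
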