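import Pool.Agent.D0H15.L9.Sel
import Pool.Agent.D0H43.L3.Fin
import Pool.Agent.D0H43.L9.DefsQ

/-!
# Project L9: the group of points and the `3`-part of the Tate-Shafarevich group
-/

set_option autoImplicit false
set_option linter.unusedVariables false
set_option linter.unusedSectionVars false

open scoped Classical

namespace Pool.Agent.D0H15.L9

open NumberField IsDedekindDomain WeierstrassCurve
open Pool.Agent.Y692.QS (Ei w nr toC)
open Pool.Agent.Y715.T.Gi Pool.Agent.Y715.T.Nr Pool.Agent.Y715.T.Df Pool.Agent.Y715.T.Ell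
open Pool.Agent.Y703.CT
open Pool.Agent.Y696.CTK (ED parts)
open Pool.Agent.N883.FF (isUnit_w)
open Pool.Agent.D0H43.L9
open Sel (pN_ne pN_eq)

namespace Fin

variable {J : Type} [Fintype J] {π : J → Ei} {e : J → ZMod 3}

/-- an element of `ℚ(ω)` with a cube root in `ℚ(ω)` -/
lemma cube_of_fixed {i₀ : QB} (hi : i₀ ^ 2 + i₀ + 1 = 0) {D : Ei} {u : QB}
    (hu : u ^ 3 = ev i₀ hi D) (hf : ∀ σ : GK i₀, σ u = u) :
    ∃ (N : ℤ) (y : Ei), N ≠ 0 ∧ y ^ 3 = (N : Ei) ^ 3 * D := by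
  have h1 : u ∈ Set.range (algebraMap (KK i₀) QB) := by
    rw [InfiniteGalois.mem_range_algebraMap_iff_fixed]
    exact hf
  obtain ⟨x, hx⟩ := h1
  have hxK : u ∈ KK i₀ := by rw [← hx]; exact x.2
  obtain ⟨a, b, e⟩ := KK_ex hi hxK
  have hda : (a.den : QB) ≠ 0 := by exact_mod_cast a.den_ne_zero
  have hdb : (b.den : QB) ≠ 0 := by exact_mod_cast b.den_ne_zero
  refine ⟨a.den * b.den, ⟨a.num * b.den, b.num * a.den⟩, ?_, ?_⟩
  · have h1 : (a.den : ℤ) ≠ 0 := by exact_mod_cast a.den_ne_zero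
    have h2 : (b.den : ℤ) ≠ 0 := by exact_mod_cast b.den_ne_zero
    exact mul_ne_zero h1 h2
  · have key : ev i₀ hi (⟨a.num * b.den, b.num * a.den⟩ : Ei) = (a.den * b.den : QB) * u := by
      rw [e, ev_apply]
      show (((a.num * b.den : ℤ) : QB) + ((b.num * a.den : ℤ) : QB) * i₀) = _
      have ha : (a : QB) = a.num / a.den := by
        conv_lhs => rw [← Rat.num_div_den a]
        push_cast
        rfl
      have hb : (b : QB) = b.num / b.den := by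
        conv_lhs => rw [← Rat.num_div_den b]
        push_cast
        rfl
      rw [ha, hb]
      push_cast
      field_simp
    have h2 : ev i₀ hi ((⟨a.num * b.den, b.num * a.den⟩ : Ei) ^ 3 -
        (((a.den * b.den : ℤ)) : Ei) ^ 3 * D) = 0 := by
      rw [map_sub, map_mul, map_pow, map_pow, key, map_intCast, ← hu]
      push_cast
      ring
    exact sub_eq_zero.1 (ev_inj hi h2)

lemma lam_ndvd_pD (hD : Dt π e) : ¬ lam ∣ pD π e := by
  unfold pD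
  rw [prime_lam.dvd_finsetProd_iff]
  rintro ⟨j, -, hj⟩
  have h3 := prime_lam.dvd_of_dvd_pow hj
  exact Pool.Agent.Y48.CT.SEL.not_assoc_lam (hD.pq j)
    ((prime_lam.dvd_prime_iff_associated (hD.pq j).prime).1 h3).symm

/-- `9 ω ^ i ∏ π_j ^ (e j)` is not a cube -/
lemma a_neN {i₀ : QB} {hi : i₀ ^ 2 + i₀ + 1 = 0} (hD : Dt π e) {i : ZMod 3}
    {u : QB} {a : GK i₀ → ZMod 3} (hT : Tw hi (pN π e i) u a) : ∃ σ, a σ ≠ 0 := by
  by_contra hcon
  push Not at hcon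
  obtain ⟨N, y, hN, hy⟩ := cube_of_fixed hi hT.cube (fun σ => by
    rw [hT.act σ, hcon σ, neg_zero, ZMod.val_zero, pow_zero, one_mul])
  have hNE : (N : Ei) ≠ 0 := by
    intro h0
    apply hN
    have h1 := congrArg QuadraticAlgebra.re h0
    simpa using h1
  have hne := pN_ne hD i
  have hy0 : y ≠ 0 := by
    rintro rfl
    rw [zero_pow three_ne_zero] at hy
    exact mul_ne_zero (pow_ne_zero 3 hNE) hne hy.symm
  obtain ⟨m, y', hy', ey⟩ := (FiniteMultiplicity.of_prime_left prime_lam hy0).exists_eq_pow_mul_and_not_dvd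
    |> fun ⟨c, hc, h⟩ => (⟨_, c, h, hc⟩ : ∃ (m : ℕ) (c : Ei), ¬ lam ∣ c ∧ y = lam ^ m * c)
  obtain ⟨n, N', hN', eN⟩ := (FiniteMultiplicity.of_prime_left prime_lam hNE).exists_eq_pow_mul_and_not_dvd
    |> fun ⟨c, hc, h⟩ => (⟨_, c, h, hc⟩ : ∃ (m : ℕ) (c : Ei), ¬ lam ∣ c ∧ (N : Ei) = lam ^ m * c)
  have hl0 : (lam : Ei) ≠ 0 := prime_lam.ne_zero
  have h1 : lam ^ (3 * m) * y' ^ 3 = lam ^ (3 * n + 4) * (N' ^ 3 * (w ^ i.val * pD π e)) := by
    rw [ey, eN] at hy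
    unfold pN at hy
    rw [Sel.nine_eq] at hy
    calc lam ^ (3 * m) * y' ^ 3 = (lam ^ m * y') ^ 3 := by ring
      _ = _ := by rw [hy]; ring
  have hA : ¬ lam ∣ y' ^ 3 := fun h => hy' (prime_lam.dvd_of_dvd_pow h)
  have hB : ¬ lam ∣ N' ^ 3 * (w ^ i.val * pD π e) := by
    intro h
    rcases prime_lam.dvd_or_dvd h with h | h
    · exact hN' (prime_lam.dvd_of_dvd_pow h)
    · rcases prime_lam.dvd_or_dvd h with h | h
      · exact prime_lam.not_isUnit (isUnit_of_dvd_unit h (isUnit_w.pow _))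
      · exact lam_ndvd_pD hD h
  rcases lt_trichotomy (3 * m) (3 * n + 4) with h | h | h
  · obtain ⟨c, hc⟩ := Nat.exists_eq_add_of_lt h
    have e1 : 3 * n + 4 = 3 * m + (c + 1) := by omega
    rw [e1, pow_add, mul_assoc] at h1
    have h2 := mul_left_cancel₀ (pow_ne_zero _ hl0) h1
    apply hA
    rw [h2, pow_succ, mul_assoc]
    exact Dvd.dvd.mul_left (dvd_mul_right _ _) _
  · omega
  · obtain ⟨c, hc⟩ := Nat.exists_eq_add_of_lt h
    have e1 : 3 * m = 3 * n + 4 + (c + 1) := by omega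
    rw [e1, pow_add, mul_assoc] at h1
    have h2 := mul_left_cancel₀ (pow_ne_zero _ hl0) h1
    apply hB
    rw [← h2, pow_succ, mul_assoc]
    exact Dvd.dvd.mul_left (dvd_mul_right _ _) _

end Fin

/-- L9-FIN over a number field -/
theorem finN (hLOC : S_LOC3N) : S_FINN := by
  intro K _ _ j J _ π e i hD hk
  have hne : pN π e i ≠ 0 := pN_ne hD i
  have hs := fun (i₀ : QB) (hi : i₀ ^ 2 + i₀ + 1 = 0) (u : QB) (a : GK i₀ → ZMod 3)
    (hT : Tw hi (pN π e i) u a) =>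
    sel hLOC Pool.Agent.N883.FF.ram Pool.Agent.N883.FF.unr J π e i hD hk i₀ hi u a hT
  have hm := parts.mwt parts.trf K j _ hne fun i₀ hi u a hT =>
    Pool.Agent.Y155.CT.t_MWK _ hne i₀ hi u a hT (Fin.a_neN hD hT) (hs i₀ hi u a hT)
  exact ⟨hm.1, hm.2, parts.sht parts.trf K j _ hne fun i₀ hi u a hT =>
    Pool.Agent.Y155.CT.t_SHK _ hne i₀ hi u a hT (hs i₀ hi u a hT)⟩

lemma pN_zero (J : Type) [Fintype J] (π : J → Ei) (e : J → ZMod 3) :
    pN π e 0 = 9 * pD π e := by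
  unfold pN
  rw [ZMod.val_zero, pow_zero, one_mul]

/-- the twist by the negative -/
lemma tw_neg {i₀ : QB} {hi : i₀ ^ 2 + i₀ + 1 = 0} {D : Ei} {u : QB} {a : GK i₀ → ZMod 3}
    (hT : Tw hi D u a) : Tw hi (-D) (-u) a := by
  refine ⟨?_, fun σ => ?_⟩
  · rw [map_neg, ← hT.cube]
    ring
  · rw [map_neg, hT.act σ]
    ring

/-- L9-FIN over `ℚ` -/
theorem finQ (hLOC : S_LOC3N) {d : ℕ} {J : Type} [Fintype J] {π : J → Ei} {e : J → ZMod 3}
    (hD : Dt π e) (hd : (d : Ei) = pD π e ∨ (d : Ei) = -pD π e) (hd0 : d ≠ 0)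
    (hk : KerN π e 0) :
    Finite (EQ (WD ((9 * d : ℕ) : ℤ))).toAffine.Point ∧
    padicValNat 3 (Nat.card (EQ (WD ((9 * d : ℕ) : ℤ))).toAffine.Point) = 1 ∧
    ∀ (n : ℕ) (x : Pool.Agent.TH841.SH.D.Sha (EQ (WD ((9 * d : ℕ) : ℤ)))),
      3 ^ n • x = 0 → x = 0 := by
  have hne : pN π e 0 ≠ 0 := pN_ne hD 0
  obtain ⟨i₀, hi⟩ := Pool.Agent.D0H43.L3.exists_i
  obtain ⟨u, a, hT⟩ := Pool.Agent.Y319.CT.exists_tw hi hne
  have hs := sel hLOC Pool.Agent.N883.FF.ram Pool.Agent.N883.FF.unr J π e 0 hD hk i₀ hi u a hT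
  have h1 := Pool.Agent.Y155.CT.t_SHK _ hne i₀ hi u a hT hs
  have h2 := Pool.Agent.Y155.CT.t_MWK _ hne i₀ hi u a hT (Fin.a_neN hD hT) hs
  have hD0 : ((9 * d : ℕ) : ℤ) ≠ 0 := by
    have : 9 * d ≠ 0 := by omega
    exact_mod_cast this
  have e9 : (((9 * d : ℕ) : ℤ) : Ei) = 9 * (d : Ei) := by push_cast; ring
  obtain ⟨u', hT'⟩ : ∃ u' : QB, Tw hi (((9 * d : ℕ) : ℤ) : Ei) u' a := by
    rcases hd with h | h
    · refine ⟨u, ?_⟩
      rw [e9, h, ← pN_zero]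
      exact hT
    · refine ⟨-u, ?_⟩
      rw [e9, h, mul_neg, ← pN_zero]
      exact tw_neg hT
  exact Pool.Agent.Y692.CT.desq _ hD0 i₀ hi u' a hT' h1 h2

end Pool.Agent.D0H15.L9
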