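import Pool.Agent.D0H43.L9.StmS
import Pool.Agent.D0H43.L3.Sel

/-!
# Project L9: the Selmer group of `9 ω ^ i ∏ π_j ^ (e j)`
-/

set_option autoImplicit false
set_option linter.unusedSectionVars false

open scoped Classical

namespace Pool.Agent.D0H15.L9.Sel

open Pool.Agent.Y692.QS (Ei w nr nr_nonneg nr_zero_iff isUnit_iff w_cube nr_mod ep epz ep_unit)
open Pool.Agent.Y715.T.Gi Pool.Agent.Y715.T.Nr Pool.Agent.Y715.T.Df
open Pool.Agent.Y715.T.Rec (cs nn)
open Pool.Agent.Y715.T.RecG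
open Pool.Agent.Y715.T.Sel (fac kc_mul kc_one kc_congr kc_pow kc_cube kc_uniq kc_cancel kc_unit
  kc_exp ex_root root_ne iota_sq iota_ev odd_of not_dvd_of_unr resid_kc exists_emb3
  norm_three_one)
open Pool.Agent.Y703.CT
open Pool.Agent.Y48.CT.SEL (not_lam not_assoc_lam p0 pr0 esq not_dvd_prod prod_form cf_prod
  support)
open Pool.Agent.N883.FF (nq)
open Pool.Agent.N883.FF.Sel (w_unit w_ne unit_w cf_unit cs_w unit_norm)
open Pool.Agent.D0H43.L3.Sel (gen gen_ne kc_gen gen_mul_pow cf_gen)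
open Pool.Agent.D0H43.L9 (pN)

variable {J : Type} [Fintype J] {π : J → Ei} {e : J → ZMod 3}
variable {i₀ : QB} {hi : i₀ ^ 2 + i₀ + 1 = 0}

lemma nine_eq : (9 : Ei) = lam ^ 4 := by
  have h : (lam : Ei) ^ 4 = (lam ^ 2) ^ 2 := by ring
  rw [h, lam_sq]
  norm_num

lemma pN_eq (i : ZMod 3) : pN π e i = gen π i.val 4 (fun j => (e j).val) := by
  unfold pN gen pD
  rw [nine_eq]
  ring

lemma pN_ne (hD : Dt π e) (i : ZMod 3) : pN π e i ≠ 0 := by
  rw [pN_eq]
  exact gen_ne hD _ _ _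

lemma pN_norm (hD : Dt π e) (i : ZMod 3) {p : ℕ} [Fact p.Prime] (hp : p ≠ 3)
    (ι : QB →ₐ[ℚ] PadicAlgCl p)
    (h : ∀ j, ¬ ‖ι (ev i₀ hi (π j))‖ < 1) : ¬ ‖ι (ev i₀ hi (pN π e i))‖ < 1 := by
  have h1 : ∀ j, ‖ι (ev i₀ hi (π j))‖ = 1 := by
    intro j
    refine le_antisymm ?_ (not_lt.1 (h j))
    rw [iota_ev]
    exact ev_le (iota_sq hi ι) _
  have h9 : ‖(9 : PadicAlgCl p)‖ = 1 := by
    have e9 : (9 : PadicAlgCl p) = 3 * 3 := by norm_num
    rw [e9, norm_mul, norm_three_one hp, one_mul]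
  have h2 : ‖ι (ev i₀ hi (pN π e i))‖ = 1 := by
    unfold pN pD
    rw [map_mul, map_ofNat, map_mul, map_ofNat, norm_mul, h9, one_mul,
      map_mul, map_pow, map_prod, map_mul, map_pow, map_prod, norm_mul, norm_pow, unit_norm,
      one_pow, one_mul, norm_prod]
    refine Finset.prod_eq_one fun j _ => ?_
    rw [map_pow, map_pow, norm_pow, h1, one_pow]
  rw [h2]
  exact lt_irrefl _

lemma cop_of {x : Ei} (h : (3 : Ei) ∣ x - 1) : IsCoprime x 3 := by
  obtain ⟨t, ht⟩ := h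
  exact ⟨1, -t, by linear_combination ht⟩

lemma nq_pow {x : Ei} (h : IsCoprime x 3) (n : ℕ) : nq (x ^ n) = n * nq x := by
  induction n with
  | zero =>
    rw [pow_zero, Pool.Agent.N883.FF.Chi.nq_unit isUnit_one, Nat.cast_zero, zero_mul]
  | succ n ih =>
    rw [pow_succ, Pool.Agent.N883.FF.Chi.nq_mul h.pow_left h, ih]
    push_cast
    ring

lemma nq_prod (hD : Dt π e) (y : J → ℕ) :
    nq (∏ j, π j ^ y j) = ∑ j, (y j : ZMod 3) * nq (π j) := by
  have hc : ∀ j, IsCoprime (π j) 3 := fun j => cop_of (hD.pq j).three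
  have h1 : ∀ S : Finset J, nq (∏ j ∈ S, π j ^ y j) = ∑ j ∈ S, (y j : ZMod 3) * nq (π j) := by
    intro S
    induction S using Finset.induction_on with
    | empty => simpa using Pool.Agent.N883.FF.Chi.nq_unit isUnit_one
    | insert a S haS ih =>
      rw [Finset.prod_insert haS, Finset.sum_insert haS,
        Pool.Agent.N883.FF.Chi.nq_mul (hc a).pow_left
          (IsCoprime.prod_left fun j _ => (hc j).pow_left), ih, nq_pow (hc a)]
  exact h1 Finset.univ

end Pool.Agent.D0H15.L9.Sel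

namespace Pool.Agent.D0H15.L9

open Pool.Agent.Y692.QS (Ei w nr nr_nonneg nr_zero_iff isUnit_iff w_cube)
open Pool.Agent.Y715.T.Gi Pool.Agent.Y715.T.Nr Pool.Agent.Y715.T.Df
open Pool.Agent.Y715.T.Rec (cs nn)
open Pool.Agent.Y715.T.RecG
open Pool.Agent.Y715.T.Sel (fac kc_mul kc_one kc_congr kc_pow kc_cube kc_uniq kc_cancel kc_unit
  kc_exp ex_root root_ne iota_sq iota_ev odd_of not_dvd_of_unr resid_kc exists_emb3)
open Pool.Agent.Y703.CT
open Pool.Agent.Y48.CT.SEL (not_lam not_assoc_lam p0 pr0 esq not_dvd_prod prod_form cf_prod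
  support)
open Pool.Agent.N883.FF (nq)
open Pool.Agent.N883.FF.Chi (nq_mul)
open Pool.Agent.N883.FF.Sel (w_unit w_ne unit_w cf_unit cs_w unit_norm)
open Pool.Agent.D0H43.L3 (yq)
open Pool.Agent.D0H43.L3.Sel (gen gen_ne kc_gen gen_mul_pow cf_gen)
open Pool.Agent.D0H43.L9
open Sel

/-- **L9-SEL.** -/
theorem sel : S_SELN := by
  intro hLOC hRAM hUNR J _ π e i hD hker i₀ hi u a hTw h hc hm hloc
  have hD0 := pN_ne hD i
  -- the character `a`
  have hb : Kc hi (gen π i.val 4 (fun j => (e j).val)) (fun σ => -a σ) := by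
    have h1 : Kc hi (pN π e i) (fun σ => -a σ) :=
      kc_of hi (root_ne (hi := hi) (z := pN π e i) hD0 hTw.cube) hTw.cube hTw.act
    rwa [pN_eq] at h1
  -- the Kummer generator
  obtain ⟨z, hz, hzh⟩ := kum hi h hc hm
  obtain ⟨v₀, g, x₀, hu, ez⟩ := fac (π := π) z hz.1 (support hD hz hzh
    (fun p _ ι hp3 hpj τ σ hcc hτ => by
      obtain ⟨R, hR⟩ := hloc p ι
      exact (hUNR (pN π e i) hD0 i₀ hi u a hTw h p ι hp3 (pN_norm hD i hp3 ι hpj) R hR τ σ hcc
        hτ).2))
  rw [ez] at hzh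
  obtain ⟨ι₃⟩ := exists_emb3
  obtain ⟨q, hq⟩ := prod_form hD x₀
  have hq' : ∏ j, π j ^ x₀ j = 1 + 3 * q := by rw [← hq]; ring
  obtain ⟨r, hr⟩ := prod_form hD (fun j => (e j).val)
  have hr' : pD π e = 1 + 3 * r := by
    unfold pD
    rw [← hr]
    ring
  obtain ⟨s, hs⟩ := unit_w hu
  -- the condition at three
  obtain ⟨n₀, b, hn1, hn2, hn3⟩ : ∃ (n : ℕ) (b : ZMod 3), 3 ∣ g + 4 * n ∧
      (v₀ * w ^ (i.val * n) = w ^ b.val ∨ v₀ * w ^ (i.val * n) = -w ^ b.val) ∧
      nq (1 + 3 * q) + n * nq (1 + 3 * r) = (i.val : ZMod 3) * b := by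
    obtain ⟨R, hR⟩ := hloc 3 ι₃
    have hzh' := hzh
    rw [hq'] at hzh'
    have hTw' := hTw
    unfold pN at hTw'
    rw [hr'] at hTw'
    exact hLOC i₀ hi i.val r u a hTw' h v₀ q g hu hzh' inferInstance ι₃ R hR
  have hsn : ((s + i.val * n₀ : ℕ) : ZMod 3) = b := by
    have h1 : (w : Ei) ^ (s + i.val * n₀) = w ^ b.val ∨ (w : Ei) ^ (s + i.val * n₀) = -w ^ b.val := by
      rw [pow_add]
      rcases hs with hs | hs
      · rwa [hs] at hn2
      · rw [hs] at hn2
        rcases hn2 with h2 | h2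
        · right
          linear_combination -h2
        · left
          linear_combination -h2
    have h3 : (w : Ei) ^ (s + i.val * n₀) = w ^ ((s + i.val * n₀) % 3) := by
      conv_lhs => rw [← Nat.div_add_mod (s + i.val * n₀) 3, pow_add, pow_mul, w_cube, one_pow,
        one_mul]
    rw [h3] at h1
    have h4 : (s + i.val * n₀) % 3 < 3 := Nat.mod_lt _ (by norm_num)
    have key : ∀ (c : Fin 3) (b : ZMod 3), ((w : Ei) ^ (c : ℕ) = w ^ b.val ∨
        (w : Ei) ^ (c : ℕ) = -w ^ b.val) → ((c : ℕ) : ZMod 3) = b := by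
      decide
    have h5 := key ⟨_, h4⟩ b h1
    rw [← h5]
    simp
  have hgn : ((g + 4 * n₀ : ℕ) : ZMod 3) = 0 := (ZMod.natCast_eq_zero_iff _ _).2 hn1
  have hx1 : Kc hi (gen π s g x₀) h := by
    have h0 := gen_ne hD s g x₀
    have e1 : v₀ * lam ^ g * ∏ j, π j ^ x₀ j = gen π s g x₀ ∨
        v₀ * lam ^ g * ∏ j, π j ^ x₀ j = -1 * gen π s g x₀ := by
      unfold gen
      rcases hs with hs | hs
      · left
        rw [hs]
        ring
      · right
        rw [hs]
        ring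
    rcases e1 with e1 | e1
    · rwa [e1] at hzh
    · refine kc_unit (u := -1) h0 (Or.inr rfl) ?_
      rwa [e1] at hzh
  -- remove the powers of `lam`
  obtain ⟨h', hh'⟩ : ∃ h' : GK i₀ → ZMod 3, h' = fun σ => h σ + n₀ * -a σ := ⟨_, rfl⟩
  obtain ⟨x, hxd⟩ : ∃ x : J → ℕ, x = fun j => x₀ j + (e j).val * n₀ := ⟨_, rfl⟩
  have hx : Kc hi (gen π b.val 0 x) h' := by
    have h1 := kc_mul (gen_ne hD s g x₀) (pow_ne_zero n₀ (gen_ne hD _ _ _)) hx1
      (kc_pow (gen_ne hD _ _ _) hb n₀)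
    rw [gen_mul_pow] at h1
    rw [hh']
    refine kc_gen (p0 hD) ?_ ?_ (fun j => ?_) h1
    · rw [hsn, ZMod.natCast_zmod_val]
    · rw [hgn, Nat.cast_zero]
    · rw [hxd]
  set v : J → ZMod 3 := fun j => x j * e j with hv
  have hxv : ∀ j, (x j : ZMod 3) = e j * v j := by
    intro j
    have := esq hD j
    calc (x j : ZMod 3) = x j * (e j * e j) := by rw [this, mul_one]
      _ = _ := by rw [hv]; ring
  have heq : ∀ j, ∑ k, e k * cs (π j) (π k) * (v k - v j) + b * nq (π j) = qN i (π j) * v j := by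
    intro j
    obtain ⟨p, hp, ι, hl⟩ := exists_emb hi (hD.pq j).prime
    have hp3 := odd_of hi ι (hD.pq j).prime hl (not_assoc_lam (hD.pq j))
    obtain ⟨R, hR⟩ := hloc p ι
    have hpj := (hD.pq j).prime
    have h9 := (hD.pq j).norm
    have hndw : ¬ π j ∣ w := fun h1 => hpj.not_isUnit (isUnit_of_dvd_unit h1 w_unit)
    have hndl : ¬ π j ∣ lam := not_lam (hD.pq j)
    have hvallt : (e j).val < 3 := ZMod.val_lt _
    have hval0 : (e j).val ≠ 0 := by
      rw [Ne, ZMod.val_eq_zero]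
      exact hD.e0 j
    have hdiv : π j ^ (e j).val ∣ pN π e i := by
      unfold pN pD
      exact ((Finset.dvd_prod_of_mem (fun j => π j ^ (e j).val) (Finset.mem_univ j)).trans
        (dvd_mul_left _ _)).trans (dvd_mul_left _ _)
    have hndiv : ¬ π j ^ ((e j).val + 1) ∣ pN π e i := by
      intro h1
      unfold pN at h1
      have hnd9 : ¬ π j ∣ (9 : Ei) := by
        rw [nine_eq]
        exact fun h => hndl (hpj.dvd_of_dvd_pow h)
      have h2' : π j ^ ((e j).val + 1) ∣ w ^ i.val * pD π e :=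
        hpj.pow_dvd_of_dvd_mul_left _ hnd9 h1
      have h2 : π j ^ ((e j).val + 1) ∣ pD π e := ((w_unit.pow i.val).dvd_mul_left).1 h2'
      unfold pD at h2
      rw [← Finset.mul_prod_erase Finset.univ (fun i => π i ^ (e i).val) (Finset.mem_univ j),
        pow_succ] at h2
      exact not_dvd_prod hD j _ ((mul_dvd_mul_iff_left (pow_ne_zero _ (p0 hD j))).1 h2)
    obtain ⟨ε₁, hε₁⟩ := hRAM (pN π e i) (π j) (e j).val (hD.pq j).prime (hD.pq j).norm hdiv hndiv
      (by omega) i₀ hi u a hTw h p ι hl R hR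
    obtain ⟨ε, hεd⟩ : ∃ ε : ZMod 3, ε = ε₁ - n₀ := ⟨_, rfl⟩
    have hε : ∀ (τ : Au p) (σ : GK i₀), Cmp ι τ σ → h' σ = ε * a σ := by
      intro τ σ hcc
      rw [hh', hεd]
      simp only
      rw [hε₁ τ σ hcc]
      ring
    -- the character that is trivial at `π j`
    set n : ℕ := ε.val with hn
    have hn3 : (n : ZMod 3) = ε := ZMod.natCast_zmod_val _
    have hy := kc_mul (gen_ne hD b.val 0 x) (pow_ne_zero n (gen_ne hD _ _ _)) hx
      (kc_pow (gen_ne hD _ _ _) hb n)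
    have hy1 : ∀ (τ : Au p) (σ : GK i₀), Cmp ι τ σ → h' σ + n * -a σ = 0 := by
      intro τ σ hcc
      rw [hε τ σ hcc, hn3]
      ring
    rw [gen_mul_pow] at hy
    set y : J → ZMod 3 := fun k => x k + e k * ε with hydef
    have hy2 : Kc hi (gen π (b.val + i.val * n) ε.val (fun k => (y k).val))
        (fun σ => h' σ + n * -a σ) := by
      refine kc_gen (p0 hD) rfl ?_ (fun k => ?_) hy
      · rw [ZMod.natCast_zmod_val, zero_add]
        push_cast
        rw [hn3]
        have h4 : (4 : ZMod 3) = 1 := by decide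
        rw [h4, one_mul]
      · rw [ZMod.natCast_zmod_val, hydef]
        push_cast
        rw [hn3, ZMod.natCast_zmod_val]
    have hyj : y j = 0 := by
      have h1 := not_dvd_of_unr (cf_unit (w_unit.pow (b.val + i.val * n)) (cf_gen hD ε y)) hy2 hp3 ι
        (hD.pq j).prime hl (fun τ σ hcc _ => hy1 τ σ hcc)
      by_contra hne
      apply h1
      refine Dvd.dvd.mul_left (Dvd.dvd.mul_left (dvd_trans (dvd_pow_self (π j) ?_)
        (Finset.dvd_prod_of_mem (fun i => π i ^ (y i).val) (Finset.mem_univ j))) _) _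
      rwa [Ne, ZMod.val_eq_zero]
    have hεv : ε = -v j := by
      have h1 : (x j : ZMod 3) + e j * ε = 0 := hyj
      have h2 := esq hD j
      rw [hxv j] at h1
      calc ε = (e j * e j) * ε := by rw [h2, one_mul]
        _ = e j * (e j * v j + e j * ε) - (e j * e j) * v j := by ring
        _ = _ := by rw [h1, h2]; ring
    have hyi : ∀ k, y k = e k * (v k - v j) := by
      intro k
      rw [hydef]
      change (x k : ZMod 3) + e k * ε = _
      rw [hxv k, hεv]
      ring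
    unfold gen at hy2
    have e2 : ∏ k, π k ^ (y k).val = ∏ k ∈ Finset.univ.erase j, π k ^ (y k).val := by
      rw [← Finset.mul_prod_erase Finset.univ (fun i => π i ^ (y i).val) (Finset.mem_univ j),
        hyj, ZMod.val_zero, pow_zero, one_mul]
    rw [e2] at hy2
    have hcube := resid_kc hy2 hp3 ι (hD.pq j).prime hl hy1
    have hnd := not_dvd_prod hD j (fun i => (y i).val)
    have hndwp : ¬ π j ∣ w ^ (b.val + i.val * n) := fun h1 => hndw (hpj.dvd_of_dvd_pow h1)
    have hndlp : ¬ π j ∣ lam ^ ε.val := fun h1 => hndl (hpj.dvd_of_dvd_pow h1)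
    have hndm : ¬ π j ∣ lam ^ ε.val * ∏ k ∈ Finset.univ.erase j, π k ^ (y k).val := by
      intro h1
      rcases hpj.dvd_or_dvd h1 with h2 | h2
      · exact hndlp h2
      · exact hnd h2
    have hnd0 : ¬ π j ∣ w ^ (b.val + i.val * n) *
        (lam ^ ε.val * ∏ k ∈ Finset.univ.erase j, π k ^ (y k).val) := by
      intro h1
      rcases hpj.dvd_or_dvd h1 with h2 | h2
      · exact hndwp h2
      · exact hndm h2
    have hcs := (cs_zero_iff hpj h9 hnd0).2 hcube
    have hnd1 : ∀ i ∈ Finset.univ.erase j, ¬ π j ∣ π i := fun i hij =>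
      hD.nd i j (Finset.ne_of_mem_erase hij)
    rw [cs_mul hpj h9 hndwp hndm, cs_mul hpj h9 hndlp hnd, cs_pow hpj h9 hndw, cs_w (hD.pq j),
      cs_pow hpj h9 hndl,
      cs_prod hpj h9 _ _ (fun i hij h1 => hnd1 i hij (hpj.dvd_of_dvd_pow h1))] at hcs
    push_cast at hcs
    rw [hn3, ZMod.natCast_zmod_val, ZMod.natCast_zmod_val, hεv] at hcs
    have hsum : ∑ k, e k * cs (π j) (π k) * (v k - v j) =
        ∑ k ∈ Finset.univ.erase j, cs (π j) (π k ^ (y k).val) := by
      rw [← Finset.add_sum_erase Finset.univ _ (Finset.mem_univ j), sub_self, mul_zero, zero_add]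
      refine Finset.sum_congr rfl fun k hij => ?_
      rw [cs_pow hpj h9 (hnd1 k hij), ZMod.natCast_zmod_val, hyi k]
      ring
    -- the symbol of `lam`
    have hlam2 : cs (π j) lam + cs (π j) lam = yq (π j) := by
      have h3 : (3 : Ei) = -(lam * lam) := by
        have := lam_sq
        rw [pow_two] at this
        rw [this, neg_neg]
      have hll : ¬ π j ∣ lam * lam := fun h1 => (hpj.dvd_or_dvd h1).elim hndl hndl
      rw [← Pool.Agent.D0H43.L3.Supp.supp (hD.pq j), ← cs_mul hpj h9 hndl hndl, h3,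
        cs_neg hpj h9 hll]
    have h3 : (3 : ZMod 3) = 0 := by decide
    rw [hsum, qN]
    linear_combination hcs - v j * hlam2 + v j * cs (π j) lam * h3
  -- the condition of level two
  have hlast : ∑ k, e k * v k * nq (π k) = i * b := by
    rw [← hq', ← hr', pD, nq_prod hD, nq_prod hD, ZMod.natCast_zmod_val] at hn3
    rw [← hn3, Finset.mul_sum, ← Finset.sum_add_distrib]
    refine Finset.sum_congr rfl fun k _ => ?_
    rw [← hxv k, hxd]
    push_cast
    ring
  obtain ⟨hv0, hb0⟩ := hker v b heq hlast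
  -- conclusion
  have hx2 : Kc hi (gen π 0 0 (fun _ => 0)) h' := by
    refine kc_gen (p0 hD) ?_ rfl (fun j => ?_) hx
    · rw [hb0, ZMod.val_zero]
    · rw [hxv j, hv0 j, mul_zero, Nat.cast_zero]
  have e3 : gen π 0 0 (fun _ => 0) = 1 := by simp [gen]
  rw [e3] at hx2
  refine ⟨n₀, fun σ => ?_⟩
  have h4 := kc_uniq one_ne_zero hx2 kc_one σ
  rw [hh'] at h4
  simp only at h4
  linear_combination h4

end Pool.Agent.D0H15.L9
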