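import Pool.Agent.D0H43.L9.StmC

/-!
# Hamiltonian path sums: decomposition at a vertex, reversal, and the cube of the path sum
-/

set_option autoImplicit false
set_option linter.unusedVariables false
set_option linter.unusedSectionVars false

namespace Pool.Agent.D0H15.L9

open Finset Pool.Agent.D0H43.L9

variable {J F : Type} [DecidableEq J] [CommRing F]

/-- double counting: a subset with a marked point -/
lemma dc {M : Type} [AddCommMonoid M] (S : Finset J) (f : J → Finset J → Finset J → M) :
    ∑ U ∈ S.powerset, ∑ k ∈ U, f k (U.erase k) (S \ U) =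
      ∑ k ∈ S, ∑ U ∈ (S.erase k).powerset, f k U ((S.erase k) \ U) := by
  rw [Finset.sum_sigma', Finset.sum_sigma']
  refine Finset.sum_bij' (fun x _ => ⟨x.2, x.1.erase x.2⟩) (fun x _ => ⟨insert x.1 x.2, x.1⟩)
    ?_ ?_ ?_ ?_ ?_
  · rintro ⟨U, k⟩ h
    simp only [mem_sigma, mem_powerset] at h ⊢
    exact ⟨h.1 h.2, erase_subset_erase _ h.1⟩
  · rintro ⟨k, U⟩ h
    simp only [mem_sigma, mem_powerset] at h ⊢
    refine ⟨insert_subset h.1 (h.2.trans (erase_subset _ _)), mem_insert_self _ _⟩
  · rintro ⟨U, k⟩ h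
    simp only [mem_sigma, mem_powerset] at h
    simp [insert_erase h.2]
  · rintro ⟨k, U⟩ h
    simp only [mem_sigma, mem_powerset] at h
    have : k ∉ U := fun hk => by simpa using h.2 hk
    simp [erase_insert this]
  · rintro ⟨U, k⟩ h
    simp only [mem_sigma, mem_powerset] at h
    congr 1
    ext x
    simp only [mem_sdiff, mem_erase, ne_eq]
    constructor
    · rintro ⟨h1, h2⟩
      exact ⟨⟨fun hx => h2 (hx ▸ h.2), h1⟩, fun hx => h2 hx.2⟩
    · rintro ⟨⟨h1, h2⟩, h3⟩
      exact ⟨h2, fun hx => h3 ⟨h1, hx⟩⟩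

/-- paths from `j` through all of `U` (`j` not in `U`) -/
def K (c : J → J → F) (q : J → F) (j : J) (U : Finset J) : F := hp c q j (insert j U)

lemma K_rec (c : J → J → F) (q : J → F) {j : J} {U : Finset J} (hj : j ∉ U) :
    K c q j U = (if U = ∅ then q j else 0) + ∑ k ∈ U, c j k * K c q k (U.erase k) := by
  unfold K
  rw [hp_rec c q (mem_insert_self j U), erase_insert hj]
  congr 1
  · have : insert j U = {j} ↔ U = ∅ := by
      constructor
      · intro h
        have := congrArg (fun s => s.erase j) h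
        simpa [erase_insert hj] using this
      · rintro rfl; simp
    simp [this]
  · refine sum_congr rfl fun k hk => ?_
    rw [insert_erase hk]

lemma K_empty (c : J → J → F) (q : J → F) (j : J) : K c q j ∅ = q j := by
  rw [K_rec c q (notMem_empty j)]; simp

/-- decomposition of the path at the vertex `o` -/
lemma K_dec (c : J → J → F) (q : J → F) (o : J) : ∀ (n : ℕ) (S : Finset J) (j : J), S.card = n →
    o ∉ S → j ∉ S → j ≠ o → K c q j (insert o S) =
      ∑ U ∈ S.powerset, K c (fun k => c k o) j U * K c q o (S \ U) := by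
  intro n
  induction n with
  | zero =>
    intro S j hS ho hj hjo
    have hS : S = ∅ := card_eq_zero.mp hS
    subst hS
    rw [K_rec c q (by simpa using hjo)]
    simp [K_empty]
  | succ n ih =>
    intro S j hS ho hj hjo
    rw [K_rec c q (by simp [hj, hjo]), if_neg (insert_ne_empty o S), zero_add, sum_insert ho,
      erase_insert ho]
    have h1 : ∀ k ∈ S, c j k * K c q k ((insert o S).erase k) =
        ∑ U ∈ (S.erase k).powerset,
          c j k * K c (fun k => c k o) k U * K c q o ((S.erase k) \ U) := by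
      intro k hk
      have hko : k ≠ o := fun h => ho (h ▸ hk)
      have : (insert o S).erase k = insert o (S.erase k) := by
        rw [erase_insert_of_ne (Ne.symm hko)]
      rw [this, ih (S.erase k) k (by rw [card_erase_of_mem hk, hS]; rfl) (by simp [ho])
        (by simp) hko, mul_sum]
      refine sum_congr rfl fun U _ => by ring
    rw [sum_congr rfl h1, ← dc S (fun k U V => c j k * K c (fun k => c k o) k U * K c q o V)]
    have h2 : ∀ U ∈ S.powerset, K c (fun k => c k o) j U * K c q o (S \ U) =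
        (if U = ∅ then c j o * K c q o S else 0) +
        ∑ k ∈ U, c j k * K c (fun k => c k o) k (U.erase k) * K c q o (S \ U) := by
      intro U hU
      have hjU : j ∉ U := fun h => hj (mem_powerset.mp hU h)
      rw [K_rec c (fun k => c k o) hjU, add_mul, sum_mul]
      congr 1
      by_cases hU0 : U = ∅
      · subst hU0; simp
      · simp [hU0]
    rw [sum_congr rfl h2, sum_add_distrib]
    congr 1
    rw [sum_ite_eq' S.powerset ∅ (fun _ => c j o * K c q o S)]
    simp

/-- paths through `S` with start weights `p` and end weights `q` -/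
def R (c : J → J → F) (p q : J → F) (S : Finset J) : F := ∑ j ∈ S, p j * K c q j (S.erase j)

lemma R_insert (c : J → J → F) (p q : J → F) {o : J} {X : Finset J} (ho : o ∉ X) :
    R c p q (insert o X) = p o * K c q o X +
      ∑ V ∈ X.powerset, R c p (fun k => c k o) V * K c q o (X \ V) := by
  unfold R
  rw [sum_insert ho, erase_insert ho]
  congr 1
  have h1 : ∀ j ∈ X, p j * K c q j ((insert o X).erase j) =
      ∑ U ∈ (X.erase j).powerset, p j * K c (fun k => c k o) j U * K c q o ((X.erase j) \ U) := by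
    intro j hj
    have hjo : j ≠ o := fun h => ho (h ▸ hj)
    rw [erase_insert_of_ne (Ne.symm hjo), K_dec c q o _ (X.erase j) j rfl (by simp [ho]) (by simp) hjo,
      mul_sum]
    refine sum_congr rfl fun U _ => by ring
  rw [sum_congr rfl h1, ← dc X (fun k U V => p k * K c (fun k => c k o) k U * K c q o V)]
  refine sum_congr rfl fun V _ => ?_
  rw [sum_mul]

lemma R_empty (c : J → J → F) (p q : J → F) : R c p q ∅ = 0 := by simp [R]

/-- for nonempty `V`, the paths from `o` through `V` -/
lemma K_eq_R (c : J → J → F) (hc : ∀ j k, j ≠ k → c j k = c k j) (q : J → F) {o : J}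
    {V : Finset J} (ho : o ∉ V) (hV : V.Nonempty) :
    K c q o V = R c (fun k => c k o) q V := by
  rw [K_rec c q ho, if_neg hV.ne_empty, zero_add]
  unfold R
  refine sum_congr rfl fun k hk => ?_
  rw [hc o k (fun h => ho (h ▸ hk))]

/-- reversal of the paths -/
lemma R_symm (c : J → J → F) (hc : ∀ j k, j ≠ k → c j k = c k j) : ∀ (n : ℕ) (S : Finset J)
    (p q : J → F), S.card = n → R c p q S = R c q p S := by
  intro n
  induction n using Nat.strong_induction_on with
  | _ n ih =>
    intro S p q hS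
    rcases S.eq_empty_or_nonempty with rfl | ⟨o, hoS⟩
    · simp [R]
    obtain ⟨X, hoX, rfl⟩ : ∃ X, o ∉ X ∧ insert o X = S := ⟨S.erase o, by simp, insert_erase hoS⟩
    have key : ∀ p q : J → F, R c p q (insert o X) =
        ∑ V ∈ X.powerset, K c p o V * K c q o (X \ V) := by
      intro p q
      rw [R_insert c p q hoX, ← sum_erase_add _ _ (empty_mem_powerset X)]
      rw [← sum_erase_add (s := X.powerset) (f := fun V => K c p o V * K c q o (X \ V))
        (a := ∅) (empty_mem_powerset X)]
      rw [R_empty, zero_mul, add_zero, K_empty, sdiff_empty, add_comm]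
      congr 1
      refine sum_congr rfl fun V hV => ?_
      simp only [mem_erase, mem_powerset, ne_eq] at hV
      have hoV : o ∉ V := fun h => hoX (hV.2 h)
      have hVn : V.Nonempty := nonempty_iff_ne_empty.mpr hV.1
      rw [K_eq_R c hc p hoV hVn, ih V.card _ V p (fun k => c k o) rfl]
      rw [← hS, card_insert_of_notMem hoX]
      exact Nat.lt_succ_of_le (card_le_card hV.2)
    rw [key p q, key q p]
    refine sum_bij' (fun V _ => X \ V) (fun V _ => X \ V) ?_ ?_ ?_ ?_ ?_
    · intro V _; simp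
    · intro V _; simp
    · intro V hV; simp only [mem_powerset] at hV; simp [inter_eq_right.mpr hV]
    · intro V hV; simp only [mem_powerset] at hV; simp [inter_eq_right.mpr hV]
    · intro V hV
      simp only [mem_powerset] at hV
      rw [Finset.sdiff_sdiff_eq_self hV, mul_comm]

lemma R_eq_K (c : J → J → F) (hc : ∀ j k, j ≠ k → c j k = c k j) (q : J → F) {o : J}
    {V : Finset J} (ho : o ∉ V) (hV : V.Nonempty) :
    R c q (fun k => c k o) V = K c q o V := by
  rw [K_eq_R c hc q ho hV, R_symm c hc _ V _ _ rfl]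

/-- the path sum through `o` is the square of `K o` -/
lemma phi_insert (c : J → J → F) (hc : ∀ j k, j ≠ k → c j k = c k j) (q : J → F) {o : J}
    {X : Finset J} (ho : o ∉ X) :
    phi c q (insert o X) = ∑ V ∈ X.powerset, K c q o V * K c q o (X \ V) := by
  have h0 : phi c q (insert o X) = R c q q (insert o X) := by
    unfold phi R K
    refine sum_congr rfl fun j hj => ?_
    rw [insert_erase hj]
  rw [h0, R_insert c q q ho, ← sum_erase_add _ _ (empty_mem_powerset X)]
  rw [← sum_erase_add (s := X.powerset) (f := fun V => K c q o V * K c q o (X \ V))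
    (a := ∅) (empty_mem_powerset X)]
  rw [R_empty, zero_mul, add_zero, K_empty, sdiff_empty, add_comm]
  congr 1
  refine sum_congr rfl fun V hV => ?_
  simp only [mem_erase, mem_powerset, ne_eq] at hV
  rw [R_eq_K c hc q (fun h => ho (hV.2 h)) (nonempty_iff_ne_empty.mpr hV.1)]

/-- the triple convolution vanishes modulo three -/
lemma cube (h : Finset J → ZMod 3) {T : Finset J} (hT : T.Nonempty) :
    ∑ V ∈ T.powerset, h V * ∑ W ∈ (T \ V).powerset, h W * h ((T \ V) \ W) = 0 := by
  obtain ⟨t, ht⟩ := hT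
  have e : ∀ V ∈ T.powerset, h V * ∑ W ∈ (T \ V).powerset, h W * h ((T \ V) \ W) =
      ∑ W ∈ (T \ V).powerset, h V * (h W * h ((T \ V) \ W)) := fun V _ => mul_sum _ _ _
  rw [sum_congr rfl e, Finset.sum_sigma']
  set D : Finset (Σ _ : Finset J, Finset J) := T.powerset.sigma fun V => (T \ V).powerset with hD
  set x : (Σ _ : Finset J, Finset J) → ZMod 3 := fun p => h p.1 * (h p.2 * h ((T \ p.1) \ p.2))
    with hx
  set lab : (Σ _ : Finset J, Finset J) → ZMod 3 := fun p =>
    if t ∈ p.1 then 0 else if t ∈ p.2 then 1 else 2 with hlab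
  set s : (Σ _ : Finset J, Finset J) → (Σ _ : Finset J, Finset J) := fun p =>
    ⟨p.2, (T \ p.1) \ p.2⟩ with hs
  have hmem : ∀ p ∈ D, p.1 ⊆ T ∧ p.2 ⊆ T \ p.1 := by
    intro p hp
    simpa [hD] using hp
  have hinv : ∑ p ∈ D, x (s p) * lab (s p) = ∑ p ∈ D, x p * lab p := by
    refine sum_bij' (fun p _ => s p) (fun p _ => ⟨(T \ p.1) \ p.2, p.1⟩) ?_ ?_ ?_ ?_ ?_
    · rintro ⟨V, W⟩ hp
      obtain ⟨h1, h2⟩ := hmem _ hp
      simp only [hD, hs, mem_sigma, mem_powerset]
      refine ⟨h2.trans sdiff_subset, ?_⟩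
      intro a ha
      simp only [mem_sdiff] at ha ⊢
      exact ⟨ha.1.1, ha.2⟩
    · rintro ⟨V, W⟩ hp
      obtain ⟨h1, h2⟩ := hmem _ hp
      simp only [hD, mem_sigma, mem_powerset]
      refine ⟨sdiff_subset.trans sdiff_subset, ?_⟩
      intro a ha
      simp only [mem_sdiff, not_and, not_not] at ha ⊢
      exact ⟨h1 ha, fun hh => absurd ha hh.2⟩
    · rintro ⟨V, W⟩ hp
      obtain ⟨h1, h2⟩ := hmem _ hp
      simp only [hs, Sigma.mk.injEq, heq_eq_eq, and_true]
      ext a
      simp only [mem_sdiff]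
      constructor
      · rintro ⟨⟨h3, h4⟩, h5⟩
        by_contra h6
        exact h5 ⟨⟨h3, h6⟩, h4⟩
      · intro ha
        exact ⟨⟨h1 ha, fun hw => (mem_sdiff.mp (h2 hw)).2 ha⟩, fun hh => hh.1.2 ha⟩
    · rintro ⟨V, W⟩ hp
      obtain ⟨h1, h2⟩ := hmem _ hp
      simp only [hs, Sigma.mk.injEq, heq_eq_eq, true_and]
      ext a
      simp only [mem_sdiff]
      constructor
      · rintro ⟨⟨h3, h4⟩, h5⟩
        by_contra h6
        exact h4 ⟨⟨h3, h5⟩, h6⟩
      · intro ha
        have := mem_sdiff.mp (h2 ha)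
        exact ⟨⟨this.1, fun hh => hh.2 ha⟩, this.2⟩
    · intro p hp; rfl
  have hxs : ∀ p ∈ D, x (s p) = x p := by
    rintro ⟨V, W⟩ hp
    obtain ⟨h1, h2⟩ := hmem _ hp
    simp only [hs, hx]
    have : (T \ W) \ ((T \ V) \ W) = V := by
      ext a
      simp only [mem_sdiff]
      constructor
      · rintro ⟨⟨h3, h4⟩, h5⟩
        by_contra h6
        exact h5 ⟨⟨h3, h6⟩, h4⟩
      · intro ha
        exact ⟨⟨h1 ha, fun hw => (mem_sdiff.mp (h2 hw)).2 ha⟩, fun hh => hh.1.2 ha⟩
    rw [this]
    ring
  have hls : ∀ p ∈ D, lab (s p) = lab p - 1 := by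
    rintro ⟨V, W⟩ hp
    obtain ⟨h1, h2⟩ := hmem _ hp
    simp only [hs, hlab, mem_sdiff]
    by_cases hV : t ∈ V
    · have hW : t ∉ W := fun hw => (mem_sdiff.mp (h2 hw)).2 hV
      simp [hV, hW]; decide
    · by_cases hW : t ∈ W
      · simp [hV, hW]
      · simp [hV, hW, ht]; decide
  have h3 : ∑ p ∈ D, x p = ∑ p ∈ D, x p * lab p - ∑ p ∈ D, x (s p) * lab (s p) := by
    rw [← sum_sub_distrib]
    refine sum_congr rfl fun p hp => ?_
    rw [hxs p hp, hls p hp]
    ring
  calc ∑ p ∈ D, h p.1 * (h p.2 * h ((T \ p.1) \ p.2)) = ∑ p ∈ D, x p := rfl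
    _ = 0 := by rw [h3, hinv, sub_self]

end Pool.Agent.D0H15.L9
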